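import Pool.Agent.SymCone.Setting
import Pool.Agent.SymCone.Fin

/-!
# The cone conjecture for symplectic varieties which are not terminal

`ℤ^n` is the Neron-Severi lattice of a projective primitive symplectic variety `X` with `ℚ`-factorial
terminal singularities, `B` the Gram matrix of the Beauville-Bogomolov-Fujiki form, `h` an ample class,
`Γ` the group of monodromy operators of Hodge type, `W` the set of wall divisors; the nef
cone is the chamber of `h`. `P` is the pull back along a birational morphism `X ⟶ M`.
-/

namespace Pool.Agent.Results.MP_9f99c5_ag.SymplecticVarieties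

open Pool.Agent.SymCone Pool.Agent.H93Cone Pool.Agent.H92Cone Pool.Agent.H55.Cone

/-- Let `B` be an integral form of signature `(1, n - 1)`, `Γ` a group of isometries of finite index
preserving the positive cone, `W` a `Γ`-stable set of walls of bounded square, `Eff` an effective
cone, `a` an integral class of positive square in the chamber of `h` and `P` an injective integral
matrix with image the space of classes orthogonal to the walls through `a`. Suppose that every
nonzero isotropic integral class `v` of the face is in `Eff` or is orthogonal to an
exceptional class. Then the cone of nef effective classes of the face, `P⁻¹ (Nef ∩ Eff)`,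
has a rational polyhedral fundamental domain under every group `G` which preserves
`P⁻¹ Nef` and `P⁻¹ Eff` and contains the restrictions of the elements of `Γ` preserving the chamber and
the face.

If `M` is a projective primitive symplectic variety which is *not terminal* (i.e. it is singular in
codimension two) and `X ⟶ M` is a `ℚ`-factorial terminalization, then the class `e` of any exceptional
divisor is exceptional and orthogonal to the face, so the last condition holds, and the
conclusion is the cone conjecture for `M`. -/
theorem result {n m : ℕ} (B : Matrix (Fin n) (Fin n) ℤ) (h : Fin n → ℝ) (hB : Hyperbolic B h)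
    (Γ : Subgroup (GL (Fin n) ℤ)) (hΓ : IsArithmetic B h Γ)
    (W : Set (Fin n → ℤ)) (hW : IsWallSet B h Γ W)
    (Eff : PointedCone ℝ (Fin n → ℝ)) (hEff : IsEffectiveCone B h W Eff)
    (a : Fin n → ℤ) (P : Matrix (Fin n) (Fin m) ℤ) (hP : IsContraction B h W a P)
    (G : Subgroup (GL (Fin m) ℤ)) (hG : IsAutomorphismGroup B h Γ W Eff a P G)
    (hiso : ∀ v : Fin n → ℤ, v ≠ 0 → intVec v ∈ chamber B h W ∩ faceSpace B W (intVec a) →
      form B (intVec v) (intVec v) = 0 →
      intVec v ∈ Eff ∨ ∃ e : Fin n → ℤ, IsExceptional B Γ Eff e ∧
        form B (intVec e) (intVec v) = 0) :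
    HasDomain G (pull P ⁻¹' (chamber B h W ∩ Eff)) := by
  obtain ⟨D, hD⟩ := hEff.integral
  obtain ⟨b, hb⟩ := hW.bounded
  refine main hB Γ hΓ.le hΓ.finite_index hΓ.side W hW.stable hW.neg b hb hW.ample Eff D hD
    hEff.big hEff.pair a hP.nef hP.big ?_ P hP.injective hP.range G hG.nef hG.eff hG.restrict
  intro v hv h1 h2 h3
  rcases hiso v hv ⟨h1, h2⟩ h3 with h4 | ⟨e, he, h4⟩
  · exact Or.inl h4
  · exact Or.inr ⟨e, he.effective, he.square, h4, he.sign⟩

end Pool.Agent.Results.MP_9f99c5_ag.SymplecticVarieties
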